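import Pool.Agent.H211.HY.Stm1
import Pool.Graph.R_seed8.H790R3.RB.TWR

/-! CHO for helper211: basic facts on the chordal distance and the spherical derivative. -/

set_option autoImplicit false

open Topology Filter Metric Set MeasureTheory

namespace Pool.Agent.H747.HY211

open Pool.Agent.H790R3.RB Pool.Agent.H211.HY

namespace CHO

/-! ### The norm -/

/-- the Euclidean norm -/
noncomputable def nn (p : ℂ × ℂ) : ℝ := Real.sqrt (N2 p)

theorem N2_nonneg (p : ℂ × ℂ) : 0 ≤ N2 p := by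
  unfold N2
  positivity

theorem nn_nonneg (p : ℂ × ℂ) : 0 ≤ nn p := Real.sqrt_nonneg _

theorem nn_sq (p : ℂ × ℂ) : nn p ^ 2 = N2 p := Real.sq_sqrt (N2_nonneg p)

theorem N2_pos {p : ℂ × ℂ} (hp : p ≠ 0) : 0 < N2 p := by
  unfold N2
  by_cases h1 : p.1 = 0
  · have h2 : p.2 ≠ 0 := fun h2 => hp (Prod.ext h1 h2)
    have h3 := norm_pos_iff.2 h2
    positivity
  · have h3 := norm_pos_iff.2 h1
    positivity

theorem nn_pos {p : ℂ × ℂ} (hp : p ≠ 0) : 0 < nn p := Real.sqrt_pos.2 (N2_pos hp)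

theorem N2_smul (a : ℂ) (p : ℂ × ℂ) : N2 (a • p) = ‖a‖ ^ 2 * N2 p := by
  unfold N2
  simp only [Prod.smul_fst, Prod.smul_snd, smul_eq_mul, norm_mul]
  ring

theorem nn_smul (a : ℂ) (p : ℂ × ℂ) : nn (a • p) = ‖a‖ * nn p := by
  unfold nn
  rw [N2_smul, Real.sqrt_mul (by positivity), Real.sqrt_sq (norm_nonneg _)]

theorem nn_eq (p : ℂ × ℂ) : nn p = ‖WithLp.toLp 2 p‖ := by
  rw [WithLp.prod_norm_eq_of_L2]
  rfl

theorem nn_add (p q : ℂ × ℂ) : nn (p + q) ≤ nn p + nn q := by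
  rw [nn_eq, nn_eq, nn_eq, WithLp.toLp_add]
  exact norm_add_le _ _

theorem cho_eq (p q : ℂ × ℂ) : cho p q = ‖cr p q‖ / (nn p * nn q) := by
  unfold cho nn
  rw [Real.sqrt_mul (N2_nonneg p)]

theorem cr_le (p q : ℂ × ℂ) : ‖cr p q‖ ≤ nn p * nn q := by
  unfold nn
  rw [← Real.sqrt_mul (N2_nonneg p)]
  apply Real.le_sqrt_of_sq_le
  have h1 : ‖cr p q‖ ≤ ‖p.1‖ * ‖q.2‖ + ‖p.2‖ * ‖q.1‖ := by
    unfold cr
    refine (norm_sub_le _ _).trans ?_
    rw [norm_mul, norm_mul]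
  have h2 : ‖cr p q‖ ^ 2 ≤ (‖p.1‖ * ‖q.2‖ + ‖p.2‖ * ‖q.1‖) ^ 2 :=
    pow_le_pow_left₀ (norm_nonneg _) h1 2
  refine h2.trans ?_
  unfold N2
  nlinarith [sq_nonneg (‖p.1‖ * ‖q.1‖ - ‖p.2‖ * ‖q.2‖)]

theorem cho_le_one (p q : ℂ × ℂ) : cho p q ≤ 1 := by
  rw [cho_eq]
  exact div_le_one_of_le₀ (cr_le p q) (mul_nonneg (nn_nonneg p) (nn_nonneg q))

theorem cho_nonneg (p q : ℂ × ℂ) : 0 ≤ cho p q := by
  rw [cho_eq]
  exact div_nonneg (norm_nonneg _) (mul_nonneg (nn_nonneg p) (nn_nonneg q))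

theorem cho_comm (p q : ℂ × ℂ) : cho p q = cho q p := by
  rw [cho_eq, cho_eq, cr_comm, norm_neg, mul_comm]

theorem cho_smul (p q : ℂ × ℂ) (a b : ℂ) (ha : a ≠ 0) (hb : b ≠ 0) :
    cho (a • p) (b • q) = cho p q := by
  rw [cho_eq, cho_eq, cr_smul_left, cr_smul_right, nn_smul, nn_smul, norm_mul, norm_mul]
  have h1 := norm_pos_iff.2 ha
  have h2 := norm_pos_iff.2 hb
  have h3 : ‖a‖ * (‖b‖ * ‖cr p q‖) = (‖a‖ * ‖b‖) * ‖cr p q‖ := by ring
  have h4 : ‖a‖ * nn p * (‖b‖ * nn q) = (‖a‖ * ‖b‖) * (nn p * nn q) := by ring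
  rw [h3, h4, mul_div_mul_left _ _ (by positivity)]

theorem tri {p q r : ℂ × ℂ} (hp : p ≠ 0) (hq : q ≠ 0) (hr : r ≠ 0) :
    cho p r ≤ cho p q + cho q r := by
  have hp' := nn_pos hp
  have hq' := nn_pos hq
  have hr' := nn_pos hr
  have h1 : cr p r • q = cr q r • p + cr p q • r := by
    unfold cr
    apply Prod.ext
    · simp only [Prod.smul_fst, Prod.fst_add, smul_eq_mul]
      ring
    · simp only [Prod.smul_snd, Prod.snd_add, smul_eq_mul]
      ring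
  have h2 : ‖cr p r‖ * nn q ≤ ‖cr q r‖ * nn p + ‖cr p q‖ * nn r := by
    rw [← nn_smul, ← nn_smul, ← nn_smul, h1]
    exact nn_add _ _
  rw [cho_eq, cho_eq, cho_eq]
  have e1 : ‖cr p r‖ / (nn p * nn r) = (‖cr p r‖ * nn q) / (nn p * nn q * nn r) := by
    field_simp
  have e2 : ‖cr p q‖ / (nn p * nn q) + ‖cr q r‖ / (nn q * nn r) =
      (‖cr q r‖ * nn p + ‖cr p q‖ * nn r) / (nn p * nn q * nn r) := by
    field_simp
    ring
  rw [e1, e2]
  exact div_le_div_of_nonneg_right h2 (by positivity)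

theorem cho_eq_zero {p q : ℂ × ℂ} (hp : p ≠ 0) (hq : q ≠ 0) : cho p q = 0 ↔ cr p q = 0 := by
  have hp' := nn_pos hp
  have hq' := nn_pos hq
  rw [cho_eq, div_eq_zero_iff, norm_eq_zero]
  constructor
  · rintro (h | h)
    · exact h
    · exact absurd h (by positivity)
  · exact Or.inl

/-! ### The map -/

section map

variable {d : ℕ} (x : CV d)

theorem hF_zero (hd : 2 ≤ d) : hF x 0 = 0 := by
  have h := hF_smul x 0 0
  rw [zero_smul, zero_pow (by omega), zero_smul] at h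
  exact h

theorem iter_zero (hd : 2 ≤ d) (n : ℕ) : (hF x)^[n] 0 = 0 := by
  induction n with
  | zero => rfl
  | succ n ih => rw [Function.iterate_succ_apply', ih, hF_zero x hd]

theorem cr_it (hd : 2 ≤ d) (n : ℕ) (p q : ℂ × ℂ) (h : cr p q = 0) :
    cr ((hF x)^[n] p) ((hF x)^[n] q) = 0 := by
  by_cases hp : p = 0
  · rw [hp, iter_zero x hd]
    simp [cr]
  by_cases hq : q = 0
  · rw [hq, iter_zero x hd]
    simp [cr]
  exact cr_iter x n hp hq h

theorem sd_smul (hd : 2 ≤ d) (a : ℂ) (ha : a ≠ 0) (p : ℂ × ℂ) : sd x (a • p) = sd x p := by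
  unfold sd
  rw [(WR d x hd).1, hF_smul, N2_smul, N2_smul, norm_mul, norm_pow, norm_pow]
  have h1 := norm_pos_iff.2 ha
  have h2 : 2 * d - 2 + 2 = 2 * d := by omega
  have h3 : ‖a‖ ^ (2 * d - 2) * ‖wr x p‖ * (‖a‖ ^ 2 * N2 p) =
      ‖a‖ ^ (2 * d) * (‖wr x p‖ * N2 p) := by
    have h5 : ‖a‖ ^ (2 * d) = ‖a‖ ^ (2 * d - 2) * ‖a‖ ^ 2 := by rw [← pow_add, h2]
    rw [h5]
    ring
  have h4 : (d : ℝ) * ((‖a‖ ^ d) ^ 2 * N2 (hF x p)) = ‖a‖ ^ (2 * d) * ((d : ℝ) * N2 (hF x p)) := by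
    rw [← pow_mul, mul_comm d 2]
    ring
  rw [h3, h4, mul_div_mul_left _ _ (by positivity)]

theorem sdn_smul (hd : 2 ≤ d) (n : ℕ) (a : ℂ) (ha : a ≠ 0) (p : ℂ × ℂ) :
    sdn x n (a • p) = sdn x n p := by
  unfold sdn
  refine Finset.prod_congr rfl fun j _ => ?_
  rw [hF_iter_smul, sd_smul x hd _ (pow_ne_zero _ ha)]

theorem differentiable_hF : Differentiable ℂ (hF x) := by
  have h := (hF_iter_differentiable d 1).comp
    ((differentiable_const x).prodMk differentiable_id : Differentiable ℂ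
      (fun p : ℂ × ℂ => (x, p)))
  exact h

theorem differentiable_iter (n : ℕ) : Differentiable ℂ ((hF x)^[n]) := by
  have h := (hF_iter_differentiable d n).comp
    ((differentiable_const x).prodMk differentiable_id : Differentiable ℂ
      (fun p : ℂ × ℂ => (x, p)))
  exact h

/-- Euler's formula -/
theorem euler (p : ℂ × ℂ) : fderiv ℂ (hF x) p p = (d : ℂ) • hF x p := by
  have h1 : HasDerivAt (fun t : ℂ => t • p) p 1 := by
    have := (hasDerivAt_id (1 : ℂ)).smul_const p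
    simpa using this
  have h2 : HasFDerivAt (hF x) (fderiv ℂ (hF x) p) ((fun t : ℂ => t • p) 1) := by
    show HasFDerivAt (hF x) (fderiv ℂ (hF x) p) ((1 : ℂ) • p)
    rw [one_smul]
    exact (differentiable_hF x p).hasFDerivAt
  have h3 : HasDerivAt ((hF x) ∘ fun t : ℂ => t • p) (fderiv ℂ (hF x) p p) 1 :=
    HasFDerivAt.comp_hasDerivAt (f := fun t : ℂ => t • p) 1 h2 h1
  have h4 : HasDerivAt (fun t : ℂ => t ^ d • hF x p) ((d : ℂ) • hF x p) 1 := by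
    have := (hasDerivAt_pow d (1 : ℂ)).smul_const (hF x p)
    simpa using this
  have h5 : ((hF x) ∘ fun t : ℂ => t • p) = fun t : ℂ => t ^ d • hF x p := by
    funext t
    exact hF_smul x t p
  rw [h5] at h3
  exact h3.unique h4

theorem cr_fderiv (hd : 2 ≤ d) (p v : ℂ × ℂ) :
    (d : ℂ) * cr (fderiv ℂ (hF x) p v) (hF x p) = wr x p * cr v p := by
  rw [← (WR d x hd).2.2 p v p, euler, cr_smul_right]

theorem spd_comp (hd : 2 ≤ d) (hx : ND x) (g : ℂ → ℂ × ℂ) (z : ℂ) (hg : DifferentiableAt ℂ g z)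
    (hz : g z ≠ 0) : spd (fun w => hF x (g w)) z = sd x (g z) * spd g z := by
  have h1 : deriv (fun w => hF x (g w)) z = fderiv ℂ (hF x) (g z) (deriv g z) :=
    ((differentiable_hF x (g z)).hasFDerivAt.comp_hasDerivAt z hg.hasDerivAt).deriv
  have hd0 : (0 : ℝ) < d := by exact_mod_cast (by omega : 0 < d)
  have h2 : (d : ℝ) * ‖cr (fderiv ℂ (hF x) (g z) (deriv g z)) (hF x (g z))‖ =
      ‖wr x (g z)‖ * ‖cr (deriv g z) (g z)‖ := by
    have h3 := congrArg norm (cr_fderiv x hd (g z) (deriv g z))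
    rw [norm_mul, norm_mul, Complex.norm_natCast] at h3
    exact h3
  have h3 : ‖cr (fderiv ℂ (hF x) (g z) (deriv g z)) (hF x (g z))‖ =
      ‖wr x (g z)‖ * ‖cr (deriv g z) (g z)‖ / d := by
    rw [← h2]
    field_simp
  have h4 : 0 < N2 (g z) := N2_pos hz
  have h5 : 0 < N2 (hF x (g z)) := N2_pos fun h => hz (hx _ h)
  unfold spd sd
  rw [h1, h3]
  field_simp

theorem spd_iter (hd : 2 ≤ d) (hx : ND x) (h : ℂ → ℂ × ℂ) (z : ℂ) (n : ℕ)
    (hg : DifferentiableAt ℂ h z) (hz : h z ≠ 0) :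
    spd (fun w => (hF x)^[n] (h w)) z = sdn x n (h z) * spd h z := by
  induction n with
  | zero => simp [sdn]
  | succ n ih =>
    have h1 : (fun w => (hF x)^[n + 1] (h w)) = fun w => hF x ((hF x)^[n] (h w)) := by
      funext w
      rw [Function.iterate_succ_apply']
    have h2 : DifferentiableAt ℂ (fun w => (hF x)^[n] (h w)) z :=
      (differentiable_iter x n (h z)).comp z hg
    rw [h1, spd_comp x hd hx (fun w => (hF x)^[n] (h w)) z h2 (hx.iter_ne n hz), ih]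
    unfold sdn
    rw [Finset.prod_range_succ]
    ring

/-! ### The Lipschitz estimate -/

theorem norm_le_nn (p : ℂ × ℂ) : ‖p‖ ≤ nn p := by
  rw [Prod.norm_def]
  apply max_le
  · apply Real.le_sqrt_of_sq_le
    unfold N2
    nlinarith [sq_nonneg ‖p.2‖]
  · apply Real.le_sqrt_of_sq_le
    unfold N2
    nlinarith [sq_nonneg ‖p.1‖]

theorem norm_cr_le (p q : ℂ × ℂ) : ‖cr p q‖ ≤ 2 * ‖p‖ * ‖q‖ := by
  unfold cr
  have h1 : ‖p.1‖ ≤ ‖p‖ := norm_fst_le p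
  have h2 : ‖p.2‖ ≤ ‖p‖ := norm_snd_le p
  have h3 : ‖q.1‖ ≤ ‖q‖ := norm_fst_le q
  have h4 : ‖q.2‖ ≤ ‖q‖ := norm_snd_le q
  calc ‖p.1 * q.2 - p.2 * q.1‖ ≤ ‖p.1 * q.2‖ + ‖p.2 * q.1‖ := norm_sub_le _ _
    _ = ‖p.1‖ * ‖q.2‖ + ‖p.2‖ * ‖q.1‖ := by rw [norm_mul, norm_mul]
    _ ≤ ‖p‖ * ‖q‖ + ‖p‖ * ‖q‖ := by gcongr
    _ = 2 * ‖p‖ * ‖q‖ := by ring

theorem exists_unit {p : ℂ × ℂ} (hp : p ≠ 0) : ∃ a : ℂ, a ≠ 0 ∧ nn (a • p) = 1 := by
  have h := nn_pos hp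
  refine ⟨(((nn p)⁻¹ : ℝ) : ℂ), ?_, ?_⟩
  · rw [Ne, Complex.ofReal_eq_zero]
    positivity
  · rw [nn_smul, Complex.norm_real, Real.norm_eq_abs, abs_of_pos (by positivity)]
    field_simp

theorem lip_unit (hx : ND x) : ∃ K : ℝ, 0 ≤ K ∧ ∀ p q : ℂ × ℂ, nn p = 1 → nn q = 1 →
    cho (hF x p) (hF x q) ≤ K * cho p q := by
  -- lower bound
  have hcont : Continuous (hF x) := (differentiable_hF x).continuous
  have hN2 : Continuous N2 := by
    unfold N2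
    fun_prop
  have hcpt : IsCompact {p : ℂ × ℂ | N2 p = 1} := by
    apply Metric.isCompact_of_isClosed_isBounded
    · exact isClosed_eq hN2 continuous_const
    · refine (Metric.isBounded_closedBall (x := (0 : ℂ × ℂ)) (r := 1)).subset ?_
      intro p hp
      have hp' : N2 p = 1 := hp
      rw [mem_closedBall, dist_zero_right]
      refine (norm_le_nn p).trans (le_of_eq ?_)
      unfold nn
      rw [hp', Real.sqrt_one]
  obtain ⟨m, hm0, hm⟩ : ∃ m : ℝ, 0 < m ∧ ∀ p : ℂ × ℂ, N2 p = 1 → m ≤ N2 (hF x p) := by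
    obtain ⟨p0, hp0, hmin⟩ := hcpt.exists_isMinOn ⟨(1, 0), by simp [N2]⟩
      (hN2.comp hcont).continuousOn
    have hp0' : p0 ≠ 0 := by
      rintro rfl
      have : N2 (0 : ℂ × ℂ) = 1 := hp0
      simp [N2] at this
    exact ⟨N2 (hF x p0), N2_pos fun h => hp0' (hx _ h), fun p hp => hmin hp⟩
  -- upper bounds
  obtain ⟨C1, hC1⟩ := (isCompact_closedBall (0 : ℂ × ℂ) 2).exists_bound_of_continuousOn
    hcont.continuousOn
  have hfd : Continuous (fderiv ℂ (hF x)) := by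
    have h1 : ContDiff ℂ 1 (hF x) := by
      have h2 := (hF_contDiff d 1).comp
        ((contDiff_const (c := x)).prodMk contDiff_id : ContDiff ℂ 1 (fun p : ℂ × ℂ => (x, p)))
      exact h2
    exact h1.continuous_fderiv (by norm_num)
  obtain ⟨C2, hC2⟩ := (isCompact_closedBall (0 : ℂ × ℂ) 2).exists_bound_of_continuousOn
    hfd.continuousOn
  have hC1n : 0 ≤ C1 := (norm_nonneg _).trans (hC1 0 (mem_closedBall_self (by norm_num)))
  have hC2n : 0 ≤ C2 := (norm_nonneg _).trans (hC2 0 (mem_closedBall_self (by norm_num)))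
  refine ⟨2 * C1 * C2 / m, by positivity, ?_⟩
  intro p q hp hq
  have hp2 : N2 p = 1 := by rw [← nn_sq, hp, one_pow]
  have hq2 : N2 q = 1 := by rw [← nn_sq, hq, one_pow]
  have hp3 : (starRingEnd ℂ) p.1 * p.1 + (starRingEnd ℂ) p.2 * p.2 = 1 := by
    rw [← Complex.normSq_eq_conj_mul_self, ← Complex.normSq_eq_conj_mul_self,
      Complex.normSq_eq_norm_sq, Complex.normSq_eq_norm_sq]
    have h1 : ‖p.1‖ ^ 2 + ‖p.2‖ ^ 2 = 1 := hp2
    exact_mod_cast h1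
  set α : ℂ := q.1 * (starRingEnd ℂ) p.1 + q.2 * (starRingEnd ℂ) p.2 with hα
  set p' : ℂ × ℂ := (-(starRingEnd ℂ) p.2, (starRingEnd ℂ) p.1) with hp'
  have hdec : q = α • p + cr p q • p' := by
    apply Prod.ext
    · simp only [hα, hp', cr, Prod.fst_add, Prod.smul_fst, smul_eq_mul]
      linear_combination (-q.1) * hp3
    · simp only [hα, hp', cr, Prod.snd_add, Prod.smul_snd, smul_eq_mul]
      linear_combination (-q.2) * hp3
  have hnp' : nn p' = 1 := by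
    unfold nn N2
    rw [hp']
    simp only [norm_neg, RCLike.norm_conj]
    rw [add_comm]
    have h1 : ‖p.1‖ ^ 2 + ‖p.2‖ ^ 2 = 1 := hp2
    rw [h1, Real.sqrt_one]
  have hcr1 : ‖cr p q‖ ≤ 1 := by
    have := cr_le p q
    rwa [hp, hq, one_mul] at this
  have hαp : α • p = q - cr p q • p' := by
    rw [eq_sub_iff_add_eq]
    exact hdec.symm
  have hqn : ‖q‖ ≤ 1 := (norm_le_nn q).trans hq.le
  have hpn : ‖p‖ ≤ 1 := (norm_le_nn p).trans hp.le
  have hp'n : ‖p'‖ ≤ 1 := (norm_le_nn p').trans hnp'.le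
  have hαn : ‖α • p‖ ≤ 2 := by
    rw [hαp]
    refine (norm_sub_le _ _).trans ?_
    rw [norm_smul]
    have : ‖cr p q‖ * ‖p'‖ ≤ 1 := mul_le_one₀ hcr1 (norm_nonneg _) hp'n
    linarith
  have hdiff : ‖hF x q - hF x (α • p)‖ ≤ C2 * ‖q - α • p‖ := by
    refine (convex_closedBall (0 : ℂ × ℂ) 2).norm_image_sub_le_of_norm_fderiv_le (𝕜 := ℂ)
      (fun y _ => differentiable_hF x y) hC2 ?_ ?_
    · rw [mem_closedBall, dist_zero_right]
      exact hαn
    · rw [mem_closedBall, dist_zero_right]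
      linarith
  have hdiff2 : ‖q - α • p‖ ≤ ‖cr p q‖ := by
    have h1 : q - α • p = cr p q • p' := by
      rw [sub_eq_iff_eq_add, add_comm]
      exact hdec
    rw [h1, norm_smul]
    exact mul_le_of_le_one_right (norm_nonneg _) hp'n
  have hcr2 : cr (hF x p) (hF x q) = cr (hF x p) (hF x q - hF x (α • p)) := by
    rw [hF_smul]
    unfold cr
    simp only [Prod.fst_sub, Prod.snd_sub, Prod.smul_fst, Prod.smul_snd, smul_eq_mul]
    ring
  have hcr3 : ‖cr (hF x p) (hF x q)‖ ≤ 2 * C1 * C2 * ‖cr p q‖ := by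
    rw [hcr2]
    refine (norm_cr_le _ _).trans ?_
    have h1 : ‖hF x p‖ ≤ C1 := hC1 p (by
      rw [mem_closedBall, dist_zero_right]
      linarith)
    have h2 : ‖hF x q - hF x (α • p)‖ ≤ C2 * ‖cr p q‖ :=
      hdiff.trans (mul_le_mul_of_nonneg_left hdiff2 hC2n)
    calc 2 * ‖hF x p‖ * ‖hF x q - hF x (α • p)‖ ≤ 2 * C1 * (C2 * ‖cr p q‖) := by gcongr
      _ = 2 * C1 * C2 * ‖cr p q‖ := by ring
  have h5 : cho p q = ‖cr p q‖ := by
    rw [cho_eq, hp, hq, mul_one, div_one]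
  rw [h5]
  unfold cho
  have h6 : m ≤ Real.sqrt (N2 (hF x p) * N2 (hF x q)) := by
    apply Real.le_sqrt_of_sq_le
    have h7 := hm p hp2
    have h8 := hm q hq2
    rw [sq]
    exact mul_le_mul h7 h8 hm0.le (hm0.le.trans h7)
  rw [div_le_iff₀ (lt_of_lt_of_le hm0 h6)]
  calc ‖cr (hF x p) (hF x q)‖ ≤ 2 * C1 * C2 * ‖cr p q‖ := hcr3
    _ = 2 * C1 * C2 / m * ‖cr p q‖ * m := by field_simp
    _ ≤ 2 * C1 * C2 / m * ‖cr p q‖ * Real.sqrt (N2 (hF x p) * N2 (hF x q)) := by gcongr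

theorem lip (hx : ND x) : ∃ K : ℝ, ∀ p q : ℂ × ℂ, p ≠ 0 → q ≠ 0 →
    cho (hF x p) (hF x q) ≤ K * cho p q := by
  obtain ⟨K, -, hK⟩ := lip_unit x hx
  refine ⟨K, fun p q hp hq => ?_⟩
  obtain ⟨a, ha, ha1⟩ := exists_unit hp
  obtain ⟨b, hb, hb1⟩ := exists_unit hq
  have h := hK (a • p) (b • q) ha1 hb1
  rwa [hF_smul, hF_smul, cho_smul _ _ _ _ (pow_ne_zero _ ha) (pow_ne_zero _ hb),
    cho_smul _ _ _ _ ha hb] at h

end map

end CHO

open CHO in
theorem t_CHO : S_CHO := by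
  refine ⟨fun p q r hp hq hr => tri hp hq hr, fun p q => ⟨cho_comm p q, cho_nonneg p q,
    cho_le_one p q⟩, fun p q hp hq => cho_eq_zero hp hq, cho_smul, ?_⟩
  intro d x hd hx
  exact ⟨fun h z n hg hz => spd_iter x hd hx h z n hg hz,
    fun n p a ha _ => sdn_smul x hd n a ha p, fun n p q h => cr_it x hd n p q h,
    fun n p hp => hx.iter_ne n hp, lip x hx⟩

end Pool.Agent.H747.HY211
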